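import Pool.Agent.Lib.MP_5d9fac_lc.Defs
import Pool.Agent.Lib.MP_5d9fac_lc.Cohen

/-!
There is a model `(M, E)` of ZFC with an uncountable cardinal `m` such that for every infinite
cardinal `n < m` the successor `k = n⁺` is again below `m` and the strong polarized relation
holds for the pair `(2 ^ k, k)`.  Taking `n = w = ℵ₀` gives `k = ℵ₁`, then `ℵ₂`, and so on.
So the negative relation at successor cardinals is not a theorem of ZFC.
-/

namespace Pool.Agent.Results.MP_5d9fac_lc.PositiveConsistent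

open Pool.Agent.Lib.MP_5d9fac_lc

theorem result : ∃ (M : Type 1) (E : M → M → Prop), IsZFC E ∧
    ∃ w m : M, IsOmega E w ∧ IsCard E w ∧ IsCard E m ∧ E w m ∧
      ∀ n : M, IsCard E n → Sub E w n → E n m →
        ∃ k l : M, E k m ∧ IsSuccCard E k n ∧ IsTwoPow E l k ∧ PosRel E l k := by
  have h : (⊤ : BB) ≠ ⊥ := fun h0 =>
    Cohen.cond_ne_bot (I := Mu × Mu) (∅, ∅) (le_bot_iff.1 (h0 ▸ le_top))
  obtain ⟨U, -⟩ := Ult.exists_of_ne_bot h
  exact ⟨Mod U, Mem U, isZFC_mod U, main U⟩

end Pool.Agent.Results.MP_5d9fac_lc.PositiveConsistent
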